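import Mathlib
import Pool.Agent.H409R2.MZ.Main

set_option autoImplicit false

namespace Pool.Agent.H409R2.MkArea

open Pool.Agent.H409R2.MZ.Mk
open Pool.Agent.H409R2.MZ.Axer
open Filter Topology

noncomputable section

/-- the area of the thin triangle attached to a node -/
def ex (X : Nd) : ℝ := (al X + be X - ga X) / (2 * al X * be X * ga X)

lemma ex_nonneg {X : Nd} (h : Valid X) : 0 ≤ ex X := by
  have h1 := al_lower h
  have h2 := be_lower h
  have h3 := ga_lower h
  have h4 := ga_le h
  unfold ex
  apply div_nonneg (by linarith)
  positivity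

lemma hf_add {X : Nd} (h : Valid X) : hf (lf X) + hf (rt X) = hf X + ex X := by
  have h1 := al_lower h
  have h2 := be_lower h
  have h3 := ga_lower h
  have h1' : al X ≠ 0 := by linarith
  have h2' : be X ≠ 0 := by linarith
  have h3' : ga X ≠ 0 := by linarith
  unfold hf ex
  rw [al_lf, be_lf, al_rt, be_rt]
  field_simp
  ring

/-- internal nodes met by the recursion `LS M _ n` -/
def IS (M : ℕ) : ℕ → Nd → Finset (List Bool)
  | 0, _ => ∅
  | (n + 1), X => if M ≤ X.p + X.q then ∅ else
      insert [] ((IS M n (lf X)).image (List.cons true) ∪ (IS M n (rt X)).image (List.cons false))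

lemma LS_eq (M n : ℕ) (X : Nd) (h : Valid X) :
    LS M hf n X = hf X + ∑ l ∈ IS M n X, ex (desc X l) := by
  induction n generalizing X with
  | zero => simp [LS, IS]
  | succ n ih =>
    by_cases hs : M ≤ X.p + X.q
    · unfold LS IS
      rw [if_pos hs, if_pos hs]; simp
    · unfold LS IS
      rw [if_neg hs, if_neg hs, ih (lf X) h.lf, ih (rt X) h.rt]
      rw [Finset.sum_insert (by simp), Finset.sum_union, Finset.sum_image, Finset.sum_image]
      · simp only [desc]
        have := hf_add h
        linarith
      · intro a _ b _ hab; exact (List.cons.inj hab).2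
      · intro a _ b _ hab; exact (List.cons.inj hab).2
      · rw [Finset.disjoint_left]
        intro a ha hb
        rw [Finset.mem_image] at ha hb
        obtain ⟨x, _, rfl⟩ := ha
        obtain ⟨y, _, hy⟩ := hb
        have := (List.cons.inj hy).1
        exact Bool.noConfusion this

lemma mem_IS (M n : ℕ) (X : Nd) (l : List Bool) (hX : X.p + X.q < M)
    (hl : l.length < n) (hpq : (desc X l).p + (desc X l).q < M)
    : l ∈ IS M n X := by
  induction n generalizing X l with
  | zero => omega
  | succ n ih =>
    unfold IS
    rw [if_neg (by omega)]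
    cases l with
    | nil => simp
    | cons b l =>
      rw [Finset.mem_insert, Finset.mem_union]
      right
      have hlen : l.length < n := by simpa using hl
      have hmono : ∀ (l : List Bool) (Y : Nd), Y.p + Y.q ≤ (desc Y l).p + (desc Y l).q := by
        intro l
        induction l with
        | nil => intro Y; exact le_rfl
        | cons b l ih2 =>
          intro Y
          cases b
          · refine le_trans ?_ (ih2 (rt Y))
            simp only [rt]; omega
          · refine le_trans ?_ (ih2 (lf Y))
            simp only [lf]; omega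
      cases b
      · right
        rw [Finset.mem_image]
        refine ⟨l, ih (rt X) l ?_ hlen hpq, rfl⟩
        have := hmono l (rt X)
        simp only [desc] at hpq
        omega
      · left
        rw [Finset.mem_image]
        refine ⟨l, ih (lf X) l ?_ hlen hpq, rfl⟩
        have := hmono l (lf X)
        simp only [desc] at hpq
        omega

/-- every finite set of nodes is eventually internal -/
lemma subset_IS (u : Finset (List Bool)) : ∀ᶠ M : ℕ in atTop, u ⊆ IS M M root := by
  have h1 : ∀ l : List Bool, ∀ᶠ M : ℕ in atTop, l ∈ IS M M root := by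
    intro l
    filter_upwards [eventually_gt_atTop (2 + l.length + (desc root l).p + (desc root l).q)] with M hM
    apply mem_IS
    · have : root.p + root.q = 2 := rfl
      omega
    · omega
    · omega
  have h2 : ∀ᶠ M : ℕ in atTop, ∀ l ∈ u, l ∈ IS M M root := by
    rw [Filter.eventually_all_finset]
    intro l _; exact h1 l
  filter_upwards [h2] with M hM
  exact hM

theorem area_hasSum (A : ℝ)
    (hA : ∀ M : ℕ, 1 ≤ M → |A - LS M hf M root| ≤ 64 * (M : ℝ) ^ 2 / 4 ^ M) :
    HasSum (fun l : List Bool => ex (desc root l)) (A - hf root) := by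
  have hlim0 : Filter.Tendsto (fun M : ℕ => 64 * (M : ℝ) ^ 2 / 4 ^ M) Filter.atTop (nhds 0) := by
    have h1 := tendsto_pow_const_mul_const_pow_of_abs_lt_one 2 (r := (1 / 4 : ℝ)) (by rw [abs_of_pos] <;> norm_num)
    have h2 := h1.const_mul 64
    rw [mul_zero] at h2
    refine h2.congr ?_
    intro M
    rw [one_div, inv_pow]
    field_simp
  have hLS : Tendsto (fun M : ℕ => LS M hf M root) atTop (𝓝 A) := by
    rw [← tendsto_sub_nhds_zero_iff]
    rw [tendsto_zero_iff_abs_tendsto_zero]
    refine squeeze_zero' (Eventually.of_forall fun M => abs_nonneg _) ?_ hlim0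
    filter_upwards [eventually_ge_atTop 1] with M hM
    have := hA M hM
    rw [abs_sub_comm] at this
    exact this
  have hIS : Tendsto (fun M : ℕ => ∑ l ∈ IS M M root, ex (desc root l)) atTop (𝓝 (A - hf root)) := by
    have h1 : (fun M : ℕ => ∑ l ∈ IS M M root, ex (desc root l)) = fun M => LS M hf M root - hf root := by
      funext M
      rw [LS_eq M M root valid_root]; ring
    rw [h1]
    exact hLS.sub_const _
  have hTop : Tendsto (fun M : ℕ => IS M M root) atTop atTop := by
    rw [tendsto_atTop]
    intro u
    exact subset_IS u
  have hnn : ∀ l : List Bool, 0 ≤ ex (desc root l) := fun l => ex_nonneg (valid_root.desc l)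
  have hle : ∀ u : Finset (List Bool), ∑ l ∈ u, ex (desc root l) ≤ A - hf root := by
    intro u
    apply ge_of_tendsto hIS
    filter_upwards [subset_IS u] with M hM
    exact Finset.sum_le_sum_of_subset_of_nonneg hM (fun i _ _ => hnn i)
  have hsum : Summable (fun l : List Bool => ex (desc root l)) := summable_of_sum_le hnn hle
  have h2 : Tendsto (fun M : ℕ => ∑ l ∈ IS M M root, ex (desc root l)) atTop (𝓝 (∑' l, ex (desc root l))) :=
    hsum.hasSum.comp hTop
  have h3 := tendsto_nhds_unique h2 hIS
  rw [← h3]
  exact hsum.hasSum

end

end Pool.Agent.H409R2.MkArea
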