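import Mathlib
import Pool.Agent.H409R2.MkArea

set_option autoImplicit false

namespace Pool.Agent.H409R2.MkConst

open Pool.Agent.H409R2.MZ.Mk
open Pool.Agent.H409R2.MZ.Axer
open Pool.Agent.H409R2.MZ.PNT
open Filter Topology

noncomputable section

lemma zeta_two : riemannZeta 2 = (Real.pi : ℂ) ^ 2 / 6 := riemannZeta_two

/-- `∑ μ(d)/d² = 6/π²` -/
lemma moebius_hasSum : HasSum (fun d : ℕ => mu d * (1 / (d : ℝ) ^ 2)) (6 / Real.pi ^ 2) := by
  have h2 : (1 : ℝ) < (2 : ℂ).re := by norm_num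
  have hs : LSeriesSummable (fun n => ((ArithmeticFunction.moebius n : ℤ) : ℂ)) 2 :=
    ArithmeticFunction.LSeriesSummable_moebius_iff.mpr h2
  have hL := ArithmeticFunction.LSeries_zeta_mul_Lseries_moebius h2
  rw [ArithmeticFunction.LSeries_zeta_eq_riemannZeta h2, zeta_two] at hL
  have hpi : (Real.pi : ℂ) ≠ 0 := by exact_mod_cast Real.pi_ne_zero
  have hval : LSeries (fun n => ((ArithmeticFunction.moebius n : ℤ) : ℂ)) 2 = 6 / (Real.pi : ℂ) ^ 2 := by
    field_simp
    field_simp at hL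
    linear_combination hL
  have hsum := hs.LSeriesHasSum
  rw [hval] at hsum
  have h3 : HasSum (fun d : ℕ => ((mu d * (1 / (d : ℝ) ^ 2) : ℝ) : ℂ)) (((6 / Real.pi ^ 2 : ℝ)) : ℂ) := by
    have e : (((6 / Real.pi ^ 2 : ℝ)) : ℂ) = 6 / (Real.pi : ℂ) ^ 2 := by push_cast; ring
    rw [e]
    unfold LSeriesHasSum at hsum
    refine hsum.congr_fun ?_ 
    intro d
    rcases eq_or_ne d 0 with rfl | hd
    · simp [mu]
    · rw [LSeries.term_of_ne_zero hd]
      unfold mu
      push_cast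
      rw [show ((d : ℂ) ^ (2 : ℂ)) = (d : ℂ) ^ (2 : ℕ) by norm_cast]
      ring
  exact Complex.hasSum_ofReal.mp h3

lemma sum_mu_sq_pi : ∀ ε : ℝ, 0 < ε → ∃ T0 : ℝ, 1 ≤ T0 ∧ ∀ T : ℝ, T0 ≤ T →
      |∑ d ∈ Finset.Ioc 0 ⌊T⌋₊, mu d * (T / d) ^ 2 - (6 / Real.pi ^ 2) * T ^ 2| ≤ ε * T := by
  obtain ⟨c0, hc0⟩ := sum_mu_sq
  have hc : c0 = 6 / Real.pi ^ 2 := by
    have h1 : Tendsto (fun n : ℕ => ∑ d ∈ Finset.range (n + 1), mu d * (1 / (d : ℝ) ^ 2)) atTop (𝓝 (6 / Real.pi ^ 2)) :=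
      moebius_hasSum.tendsto_sum_nat.comp (tendsto_add_atTop_nat 1)
    have h2 : Tendsto (fun n : ℕ => ∑ d ∈ Finset.range (n + 1), mu d * (1 / (d : ℝ) ^ 2)) atTop (𝓝 c0) := by
      rw [Metric.tendsto_atTop]
      intro ε hε
      obtain ⟨T0, hT0, h⟩ := hc0 (ε / 2) (by positivity)
      refine ⟨max 1 ⌈T0⌉₊, ?_⟩
      intro n hn
      have hn1 : 1 ≤ n := (le_max_left _ _).trans hn
      have hnT : T0 ≤ n := (Nat.le_ceil T0).trans (by exact_mod_cast (le_max_right _ _).trans hn)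
      have h3 := h n hnT
      rw [Nat.floor_natCast] at h3
      have hn0 : (1 : ℝ) ≤ n := by exact_mod_cast hn1
      have e : ∑ d ∈ Finset.Ioc 0 n, mu d * ((n : ℝ) / d) ^ 2 = (n : ℝ) ^ 2 * ∑ d ∈ Finset.range (n + 1), mu d * (1 / (d : ℝ) ^ 2) := by
        rw [Finset.mul_sum]
        rw [Finset.sum_range_succ']
        have : mu 0 = 0 := by simp [mu]
        rw [this]
        have e2 : Finset.Ioc 0 n = (Finset.range n).image (fun i => i + 1) := by
          ext i
          simp only [Finset.mem_Ioc, Finset.mem_image, Finset.mem_range]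
          constructor
          · intro hi
            exact ⟨i - 1, by omega, by omega⟩
          · rintro ⟨j, hj, rfl⟩
            omega
        rw [e2, Finset.sum_image (by intro a _ b _ hab; simpa using hab)]
        simp only [zero_mul, mul_zero, add_zero]
        apply Finset.sum_congr rfl
        intro d _
        rw [div_pow]; ring
      rw [e] at h3
      have h4 : |(∑ d ∈ Finset.range (n + 1), mu d * (1 / (d : ℝ) ^ 2)) - c0| * (n : ℝ) ^ 2 ≤ ε / 2 * n := by
        rw [← abs_of_nonneg (by positivity : (0:ℝ) ≤ (n : ℝ) ^ 2), ← abs_mul]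
        have e3 : ((∑ d ∈ Finset.range (n + 1), mu d * (1 / (d : ℝ) ^ 2)) - c0) * (n : ℝ) ^ 2 =
          (n : ℝ) ^ 2 * ∑ d ∈ Finset.range (n + 1), mu d * (1 / (d : ℝ) ^ 2) - c0 * (n : ℝ) ^ 2 := by ring
        rw [e3]; exact h3
      rw [Real.dist_eq]
      set W := |(∑ d ∈ Finset.range (n + 1), mu d * (1 / (d : ℝ) ^ 2)) - c0|
      have hW : 0 ≤ W := abs_nonneg _
      have h5 : W * n ≤ ε / 2 := by
        have : (W * n) * n ≤ (ε / 2) * n := by
          calc (W * n) * n = W * (n : ℝ) ^ 2 := by ring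
            _ ≤ _ := h4
        exact le_of_mul_le_mul_right this (by linarith)
      have h6 : W ≤ W * n := le_mul_of_one_le_right hW hn0
      linarith
    exact tendsto_nhds_unique h2 h1
  rw [hc] at hc0
  exact hc0

/-- transfer with the explicit constant (same proof as `Helper862.Axer.transfer`) -/
theorem transfer' (L : ℝ → ℝ) (A b : ℝ) (hA : 0 ≤ A) (hb : 0 ≤ b)
    (hL : ∀ x y, 1 ≤ x → x ≤ y → L x ≤ L y) (hLn : ∀ x, 1 ≤ x → 0 ≤ L x)
    (htail : TailSmall (fun t => L t + b * t - A * t ^ 2)) :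
    ∀ ε : ℝ, 0 < ε → ∃ T0 : ℝ, 1 ≤ T0 ∧ ∀ T : ℝ, T0 ≤ T →
      |∑ d ∈ Finset.Ioc 0 ⌊T⌋₊, mu d * L (T / d) - A * (6 / Real.pi ^ 2) * T ^ 2| ≤ ε * T := by
  have hc0 := sum_mu_sq_pi
  set c0 := 6 / Real.pi ^ 2
  intro ε hε
  obtain ⟨T1, hT11, hT1⟩ := axer (fun t => L t + b * t) (fun t => A * t ^ 2)
    (fun x y h1 h2 => add_le_add (hL x y h1 h2) (mul_le_mul_of_nonneg_left h2 hb))
    (fun x y h1 h2 => mul_le_mul_of_nonneg_left (by nlinarith) hA)
    (fun x h => add_nonneg (hLn x h) (mul_nonneg hb (by linarith)))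
    (fun x h => by positivity) htail (ε / 3) (by positivity)
  obtain ⟨T2, hT21, hT2⟩ := sum_mu_div (ε / (3 * (b + 1))) (by positivity)
  obtain ⟨T3, hT31, hT3⟩ := hc0 (ε / (3 * (A + 1))) (by positivity)
  refine ⟨max T1 (max T2 T3), le_trans hT11 (le_max_left _ _), ?_⟩
  intro T hT
  have hTT1 : T1 ≤ T := (le_max_left _ _).trans hT
  have hTT2 : T2 ≤ T := ((le_max_left _ _).trans (le_max_right _ _)).trans hT
  have hTT3 : T3 ≤ T := ((le_max_right _ _).trans (le_max_right _ _)).trans hT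
  have hTpos : 0 < T := by linarith
  have e1 := hT1 T hTT1
  have e2 := hT2 T hTT2
  have e3 := hT3 T hTT3
  have hdecomp : ∑ d ∈ Finset.Ioc 0 ⌊T⌋₊, mu d * L (T / d) - A * c0 * T ^ 2 =
      (∑ d ∈ Finset.Ioc 0 ⌊T⌋₊, mu d * (L (T / d) + b * (T / d) - A * (T / d) ^ 2)) -
      b * (∑ d ∈ Finset.Ioc 0 ⌊T⌋₊, mu d * (T / d)) +
      A * (∑ d ∈ Finset.Ioc 0 ⌊T⌋₊, mu d * (T / d) ^ 2 - c0 * T ^ 2) := by
    have h1 : ∑ d ∈ Finset.Ioc 0 ⌊T⌋₊, mu d * (L (T / d) + b * (T / d) - A * (T / d) ^ 2) =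
      ∑ d ∈ Finset.Ioc 0 ⌊T⌋₊, mu d * L (T / d) + b * (∑ d ∈ Finset.Ioc 0 ⌊T⌋₊, mu d * (T / d))
      - A * (∑ d ∈ Finset.Ioc 0 ⌊T⌋₊, mu d * (T / d) ^ 2) := by
      rw [Finset.mul_sum, Finset.mul_sum, ← Finset.sum_add_distrib, ← Finset.sum_sub_distrib]
      apply Finset.sum_congr rfl
      intro d _; ring
    rw [h1]; ring
  rw [hdecomp]
  have e2' : |b * (∑ d ∈ Finset.Ioc 0 ⌊T⌋₊, mu d * (T / d))| ≤ ε / 3 * T := by
    rw [abs_mul, abs_of_nonneg hb]
    calc b * |∑ d ∈ Finset.Ioc 0 ⌊T⌋₊, mu d * (T / d)| ≤ b * (ε / (3 * (b + 1)) * T) :=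
          mul_le_mul_of_nonneg_left e2 hb
      _ = ε / 3 * T * (b / (b + 1)) := by field_simp
      _ ≤ ε / 3 * T * 1 := by
          apply mul_le_mul_of_nonneg_left _ (by positivity)
          rw [div_le_one (by positivity)]; linarith
      _ = ε / 3 * T := by ring
  have e3' : |A * (∑ d ∈ Finset.Ioc 0 ⌊T⌋₊, mu d * (T / d) ^ 2 - c0 * T ^ 2)| ≤ ε / 3 * T := by
    rw [abs_mul, abs_of_nonneg hA]
    calc A * |∑ d ∈ Finset.Ioc 0 ⌊T⌋₊, mu d * (T / d) ^ 2 - c0 * T ^ 2| ≤ A * (ε / (3 * (A + 1)) * T) :=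
          mul_le_mul_of_nonneg_left e3 hA
      _ = ε / 3 * T * (A / (A + 1)) := by field_simp
      _ ≤ ε / 3 * T * 1 := by
          apply mul_le_mul_of_nonneg_left _ (by positivity)
          rw [div_le_one (by positivity)]; linarith
      _ = ε / 3 * T := by ring
  rw [abs_le] at e1 e2' e3' ⊢
  constructor <;> linarith [e1.1, e1.2, e2'.1, e2'.2, e3'.1, e3'.2]

/-- the explicit constant -/
def CC : ℝ := 3 / Real.pi ^ 2 * (1 / (al root * be root) +
  ∑' l : List Bool, (al (desc root l) + be (desc root l) - ga (desc root l)) /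
    (al (desc root l) * be (desc root l) * ga (desc root l)))

lemma summable_terms : Summable (fun l : List Bool => (al (desc root l) + be (desc root l) - ga (desc root l)) /
    (al (desc root l) * be (desc root l) * ga (desc root l))) := by
  obtain ⟨A, hA0, hA⟩ := area_exists
  have h := (MkArea.area_hasSum A hA).summable.mul_left 2
  refine h.congr ?_
  intro l
  unfold MkArea.ex
  have h1 := al_lower (valid_root.desc l)
  have h2 := be_lower (valid_root.desc l)
  have h3 := ga_lower (valid_root.desc l)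
  have h1' : al (desc root l) ≠ 0 := by linarith
  have h2' : be (desc root l) ≠ 0 := by linarith
  have h3' : ga (desc root l) ≠ 0 := by linarith
  field_simp

theorem PP_asymp' : ∀ ε : ℝ, 0 < ε → ∃ T0 : ℝ, 1 ≤ T0 ∧ ∀ T : ℝ, T0 ≤ T →
    |(PP T : ℝ) - CC * T ^ 2| ≤ ε * T := by
  obtain ⟨A, hA0, hA⟩ := area_exists
  obtain ⟨C, t0, hC, hR⟩ := R_bound A hA
  have hal := al_lower valid_root
  have hbe := be_lower valid_root
  have hal0 : 0 < al root := by linarith
  have hbe0 : 0 < be root := by linarith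
  have htail : TailSmall (fun t => (cnt root t : ℝ) + (1 / 2 * (1 / al root + 1 / be root)) * t - A * t ^ 2) := by
    apply tailSmall_of_bound _ C t0 hC
    intro t ht
    have h := hR t ht
    have e : (cnt root t : ℝ) + (1 / 2 * (1 / al root + 1 / be root)) * t - A * t ^ 2 =
        (cnt root t : ℝ) + t / 2 * (1 / al root + 1 / be root) - A * t ^ 2 := by ring
    rw [e]; exact h
  have hc := transfer' (fun t => (cnt root t : ℝ)) A (1 / 2 * (1 / al root + 1 / be root)) hA0 (by positivity)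
    (fun x y _ hxy => by exact_mod_cast cnt_mono valid_root droot hxy) (fun x _ => by positivity) htail
  have hCC : A * (6 / Real.pi ^ 2) = CC := by
    have h1 := (MkArea.area_hasSum A hA).tsum_eq
    unfold CC
    have h2 : ∑' l : List Bool, (al (desc root l) + be (desc root l) - ga (desc root l)) /
      (al (desc root l) * be (desc root l) * ga (desc root l)) = 2 * ∑' l : List Bool, MkArea.ex (desc root l) := by
      rw [← tsum_mul_left]
      apply tsum_congr
      intro l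
      unfold MkArea.ex
      have h1 := al_lower (valid_root.desc l)
      have h2 := be_lower (valid_root.desc l)
      have h3 := ga_lower (valid_root.desc l)
      have h1' : al (desc root l) ≠ 0 := by linarith
      have h2' : be (desc root l) ≠ 0 := by linarith
      have h3' : ga (desc root l) ≠ 0 := by linarith
      field_simp
    rw [h2, h1]
    unfold hf
    have h1' : al root ≠ 0 := by linarith
    have h2' : be root ≠ 0 := by linarith
    field_simp
    ring
  rw [hCC] at hc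
  intro ε hε
  obtain ⟨T0, hT0, h⟩ := hc ε hε
  refine ⟨T0, hT0, fun T hT => ?_⟩
  have h2 := h T hT
  rwa [mobius_id T (hT0.trans hT)] at h2

end

end Pool.Agent.H409R2.MkConst
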